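import Pool.Agent.Lib.MP_9cc147_pr.Cx.D3

/-! Band limited functions: products, vanishing of the transform, inversion, Poisson summation. -/

open scoped Classical Topology FourierTransform Real
open MeasureTheory Filter Complex

noncomputable section
namespace Pool.Agent.Lib.MP_9cc147_pr.Cx.H

/-- band limited, with frequencies indexed by any finite measure space -/
def BG (B : ℝ) (f : ℝ → ℂ) : Prop :=
  ∃ (Ω : Type) (_ : MeasurableSpace Ω) (μ : Measure Ω) (s : Ω → ℝ) (γ : Ω → ℂ),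
    IsFiniteMeasure μ ∧ Measurable s ∧ Integrable γ μ ∧ (∀ᵐ ω ∂μ, |s ω| ≤ B) ∧
      ∀ x : ℝ, f x = ∫ ω, cexp (I * x * s ω) * γ ω ∂μ

theorem norm_e (x y : ℝ) : ‖cexp (I * x * y)‖ = 1 := by
  rw [show I * (x : ℂ) * y = ((x * y : ℝ) : ℂ) * I by push_cast; ring, norm_exp_ofReal_mul_I]

theorem int_e {Ω : Type} [MeasurableSpace Ω] {μ : Measure Ω} {s : Ω → ℝ} {γ : Ω → ℂ}
    (hs : Measurable s) (hγ : Integrable γ μ) (x : ℝ) :
    Integrable (fun ω => cexp (I * x * s ω) * γ ω) μ :=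
  hγ.bdd_mul (c := 1) (Measurable.aestronglyMeasurable (by fun_prop))
    (Eventually.of_forall fun ω => (norm_e x (s ω)).le)

theorem BG.of_BL {B : ℝ} {f : ℝ → ℝ} (h : BL B f) : BG B fun x => (f x : ℂ) := by
  obtain ⟨μ, γ, h1, h2, h3, h4⟩ := h
  exact ⟨ℝ, inferInstance, μ, id, γ, h1, measurable_id, h2, h3, h4⟩

theorem BG.mono {B B' : ℝ} {f : ℝ → ℂ} (h : BG B f) (hB : B ≤ B') : BG B' f := by
  obtain ⟨Ω, m, μ, s, γ, h1, h2, h3, h4, h5⟩ := h
  exact ⟨Ω, m, μ, s, γ, h1, h2, h3, h4.mono fun ω h => h.trans hB, h5⟩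

theorem BG.const (c : ℂ) : BG 0 fun _ => c :=
  ⟨Unit, inferInstance, Measure.dirac (), fun _ => 0, fun _ => c, inferInstance,
    measurable_const, integrable_const _, by simp, by simp⟩

theorem BG.cos (t : ℝ) : BG |t| fun x => ((1 + Real.cos (t * x) : ℝ) : ℂ) := by
  refine ⟨Fin 3, inferInstance, Measure.count, ![0, t, -t], ![1, 1 / 2, 1 / 2], inferInstance,
    measurable_of_finite _, Integrable.of_finite, Eventually.of_forall fun i => ?_, fun x => ?_⟩
  · fin_cases i <;> simp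
  · rw [integral_count, Fin.sum_univ_three]
    simp only [Matrix.cons_val_zero, Matrix.cons_val_one, Matrix.cons_val]
    push_cast
    rw [Complex.cos]
    simp only [mul_zero, Complex.exp_zero]
    rw [show I * (x : ℂ) * t = t * x * I by ring, show I * (x : ℂ) * -t = -(t * x) * I by ring]
    ring

theorem BG.aff {B : ℝ} {f : ℝ → ℂ} (h : BG B f) (a b : ℝ) :
    BG (|a| * B) fun x => f (a * x + b) := by
  obtain ⟨Ω, m, μ, s, γ, h1, h2, h3, h4, h5⟩ := h
  refine ⟨Ω, m, μ, fun ω => a * s ω, fun ω => cexp (I * b * s ω) * γ ω, h1, by fun_prop,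
    int_e h2 h3 b, h4.mono fun ω h => ?_, fun x => ?_⟩
  · rw [abs_mul]; exact mul_le_mul_of_nonneg_left h (abs_nonneg a)
  · simp only [h5]
    congr 1 with ω
    rw [← mul_assoc, ← Complex.exp_add]
    push_cast
    ring_nf

theorem BG.mul {B B' : ℝ} {f g : ℝ → ℂ} (h : BG B f) (h' : BG B' g) :
    BG (B + B') fun x => f x * g x := by
  obtain ⟨Ω, m, μ, s, γ, h1, h2, h3, h4, h5⟩ := h
  obtain ⟨Ω', m', μ', s', γ', h1', h2', h3', h4', h5'⟩ := h'
  refine ⟨Ω × Ω', inferInstance, μ.prod μ', fun ω => s ω.1 + s' ω.2, fun ω => γ ω.1 * γ' ω.2,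
    inferInstance, by fun_prop, h3.mul_prod h3', ?_, fun x => ?_⟩
  · filter_upwards [Measure.quasiMeasurePreserving_fst.ae h4,
      Measure.quasiMeasurePreserving_snd.ae h4'] with ω a b
    exact (abs_add_le _ _).trans (add_le_add a b)
  · simp only [h5, h5']
    rw [← integral_prod_mul]
    congr 1 with ω
    push_cast
    rw [mul_add, Complex.exp_add]
    ring

theorem BG.prod {ι : Type*} (S : Finset ι) {B : ι → ℝ} {f : ι → ℝ → ℂ}
    (h : ∀ i ∈ S, BG (B i) (f i)) : BG (∑ i ∈ S, B i) fun x => ∏ i ∈ S, f i x := by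
  induction S using Finset.induction_on with
  | empty => simpa using BG.const 1
  | insert a S ha ih =>
    simp only [Finset.sum_insert ha, Finset.prod_insert ha]
    exact (h a (by simp)).mul (ih fun i hi => h i (by simp [hi]))

theorem BG.cont {B : ℝ} {f : ℝ → ℂ} (h : BG B f) : Continuous f := by
  obtain ⟨Ω, m, μ, s, γ, h1, h2, h3, h4, h5⟩ := h
  rw [show f = _ from funext h5]
  refine continuous_of_dominated (bound := fun ω => ‖γ ω‖) (fun x => (int_e h2 h3 x).1)
    (fun x => Eventually.of_forall fun ω => ?_) h3.norm (Eventually.of_forall fun ω => by fun_prop)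
  rw [norm_mul, norm_e, one_mul]

/-- the transform of an integrable band limited function vanishes off the band -/
theorem BG.van {B : ℝ} {f : ℝ → ℂ} (h : BG B f) (hf : Integrable f) {ξ : ℝ} (hξ : B < |ξ|) :
    ∫ x : ℝ, cexp (I * x * ξ) * f x = 0 := by
  obtain ⟨Ω, m, μ, s, γ, h1, h2, h3, h4, h5⟩ := h
  have hg : Integrable fun x : ℝ => cexp (I * x * ξ) * f x :=
    hf.bdd_mul (c := 1) (Continuous.aestronglyMeasurable (by fun_prop))
      (Eventually.of_forall fun x => (norm_e x ξ).le)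
  refine tendsto_nhds_unique (Real.tendsto_integral_cexp_sq_smul hg) ?_
  set δ := |ξ| - B with hδ
  have hδ0 : 0 < δ := by linarith
  have lim : Tendsto (fun c : ℝ => (π ^ (1 / 2 : ℝ) * ∫ ω, ‖γ ω‖ ∂μ) *
      (c ^ (1 / 2 : ℝ) * Real.exp (-(δ ^ 2 / 4) * c))) atTop (𝓝 0) := by
    simpa using (tendsto_rpow_mul_exp_neg_mul_atTop_nhds_zero (1 / 2) (δ ^ 2 / 4)
      (by positivity)).const_mul (π ^ (1 / 2 : ℝ) * ∫ ω, ‖γ ω‖ ∂μ)
  refine squeeze_zero_norm' ?_ lim
  filter_upwards [eventually_gt_atTop (0 : ℝ)] with c hc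
  have hb : 0 < ((c⁻¹ : ℝ) : ℂ).re := by simpa using hc
  have hi : Integrable (Function.uncurry fun (v : ℝ) (ω : Ω) =>
      cexp (I * ((ξ + s ω : ℝ) : ℂ) * v) * cexp (-((c⁻¹ : ℝ) : ℂ) * v ^ 2) * γ ω)
      (volume.prod μ) := by
    have := (integrable_cexp_neg_mul_sq hb).mul_prod h3
    refine (this.bdd_mul (c := 1) (f := fun z : ℝ × Ω => cexp (I * ((ξ + s z.2 : ℝ) : ℂ) * z.1))
      (Measurable.aestronglyMeasurable (by fun_prop))
      (Eventually.of_forall fun z => (norm_e _ _).le)).congr (Eventually.of_forall fun z => ?_)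
    simp only [Function.uncurry]
    ring
  have e1 : (∫ v : ℝ, cexp (-((c⁻¹ : ℝ) : ℂ) * ((‖v‖ : ℝ) : ℂ) ^ 2) • (cexp (I * v * ξ) * f v)) =
      ∫ ω, (((π : ℂ) / ((c⁻¹ : ℝ) : ℂ)) ^ (1 / 2 : ℂ) *
        cexp (-((ξ + s ω : ℝ) : ℂ) ^ 2 / (4 * ((c⁻¹ : ℝ) : ℂ)))) * γ ω ∂μ := by
    simp_rw [← fourierIntegral_gaussian hb, ← integral_mul_const]
    rw [← integral_integral_swap hi]
    congr 1 with v
    rw [h5, smul_eq_mul, ← integral_const_mul, ← integral_const_mul]
    congr 1 with ω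
    rw [show ((‖v‖ : ℝ) : ℂ) ^ 2 = v ^ 2 by
      rw [← ofReal_pow, Real.norm_eq_abs, sq_abs, ofReal_pow]]
    push_cast
    rw [show I * (ξ + s ω : ℂ) * v = I * v * ξ + I * v * s ω by ring, Complex.exp_add]
    ring
  rw [e1]
  refine (norm_integral_le_of_norm_le
    (h3.norm.const_mul (π ^ (1 / 2 : ℝ) * (c ^ (1 / 2 : ℝ) * Real.exp (-(δ ^ 2 / 4) * c))))
    ?_).trans (le_of_eq ?_)
  · filter_upwards [h4] with ω hω
    rw [norm_mul, norm_mul, ← mul_assoc (π ^ (1 / 2 : ℝ)), ← Real.mul_rpow Real.pi_pos.le hc.le,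
      ← ofReal_div, norm_cpow_eq_rpow_re_of_pos (by positivity), div_inv_eq_mul,
      show -((ξ + s ω : ℝ) : ℂ) ^ 2 / (4 * ((c⁻¹ : ℝ) : ℂ)) = ((-((ξ + s ω) ^ 2 / 4) * c : ℝ) : ℂ) by
        push_cast; field_simp, norm_exp_ofReal]
    have e2 : (1 / 2 : ℂ).re = 1 / 2 := by norm_num
    rw [e2]
    have e3 : δ ≤ |ξ + s ω| := by
      have := abs_add_le (ξ + s ω) (-s ω)
      rw [abs_neg, add_neg_cancel_right] at this
      linarith
    have e4 : δ ^ 2 ≤ (ξ + s ω) ^ 2 := by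
      rw [← sq_abs (ξ + s ω)]; exact pow_le_pow_left₀ hδ0.le e3 2
    gcongr
  · rw [integral_const_mul]; ring

/-- inversion with the explicit density -/
theorem BG.inv {B : ℝ} {f : ℝ → ℂ} (h : BG B f) (hf : Integrable f) (x : ℝ) :
    f x = ∫ s in Set.Icc (-B) B,
      cexp (I * x * s) * (((2 * π)⁻¹ : ℝ) * ∫ y : ℝ, cexp (I * y * (-s : ℝ)) * f y) := by
  have e : ∀ w : ℝ, 𝓕 f w = ∫ y : ℝ, cexp (I * y * (-(2 * π * w) : ℝ)) * f y := fun w => by
    rw [Real.fourier_real_eq_integral_exp_smul]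
    congr 1 with y
    rw [smul_eq_mul]
    congr 2
    push_cast
    ring
  have hc : Continuous (𝓕 f) := VectorFourier.fourierIntegral_continuous
    Real.continuous_fourierChar (by exact continuous_inner) hf
  have hp : 0 < 2 * π := by positivity
  have hi : Integrable (𝓕 f) := by
    refine (hc.continuousOn.integrableOn_compact
      (isCompact_Icc (a := -|B|) (b := |B|))).integrable_of_forall_notMem_eq_zero fun w hw => ?_
    rw [e]
    apply h.van hf
    rw [abs_neg, abs_mul, abs_of_pos hp]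
    have h1 : |B| < |w| := by
      by_contra h2
      exact hw (abs_le.1 (not_lt.1 h2))
    nlinarith [le_abs_self B, abs_nonneg B, Real.pi_gt_three]
  rw [← hf.fourierInv_fourier_eq hi h.cont.continuousAt, Real.fourierInv_eq',
    setIntegral_eq_integral_of_forall_compl_eq_zero]
  · have := Measure.integral_comp_mul_left (fun s : ℝ => cexp (I * x * s) *
      (((2 * π)⁻¹ : ℝ) * ∫ y : ℝ, cexp (I * y * (-s : ℝ)) * f y)) (2 * π)
    rw [abs_of_pos (inv_pos.2 hp), eq_comm, inv_smul_eq_iff₀ hp.ne'] at this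
    rw [this, ← integral_smul]
    congr 1 with v
    rw [e, smul_eq_mul, real_smul]
    have hp' : ((2 * π : ℝ) : ℂ) ≠ 0 := ofReal_ne_zero.2 hp.ne'
    rw [show cexp (((2 * π * inner ℝ v x : ℝ) : ℂ) * I) = cexp (I * x * (2 * π * v : ℝ)) by
      congr 1; simp only [RCLike.inner_apply, conj_trivial]; push_cast; ring, ofReal_inv]
    generalize (∫ y : ℝ, cexp (I * y * (-(2 * π * v) : ℝ)) * f y) = J
    field_simp
  · intro s hs
    rw [h.van hf, mul_zero, mul_zero]
    rw [abs_neg]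
    by_contra h2
    exact hs (abs_le.1 (not_lt.1 h2))

theorem tail_le {c : ℝ} (hc : 0 < c) (x : ℝ) :
    Real.exp (-c * √|x|) ≤ (1 + 24 / c ^ 4) * (1 + x ^ 2)⁻¹ := by
  have h1 := Real.pow_div_factorial_le_exp (c * √|x|) (by positivity) 4
  have h2 : (c * √|x|) ^ 4 = c ^ 4 * x ^ 2 := by
    rw [mul_pow, show √|x| ^ 4 = (√|x| ^ 2) ^ 2 by ring, Real.sq_sqrt (abs_nonneg x), sq_abs]
  have h3 : (1 : ℝ) ≤ Real.exp (c * √|x|) := Real.one_le_exp (by positivity)
  rw [h2, show ((Nat.factorial 4 : ℕ) : ℝ) = 24 by norm_num [Nat.factorial]] at h1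
  rw [neg_mul, Real.exp_neg, ← div_eq_mul_inv, inv_eq_one_div,
    div_le_div_iff₀ (Real.exp_pos _) (by positivity)]
  have h4 : x ^ 2 ≤ 24 / c ^ 4 * Real.exp (c * √|x|) := by
    rw [div_mul_eq_mul_div, le_div_iff₀ (by positivity)]; linarith
  linarith

theorem int_of_dec {f : ℝ → ℂ} {K : ℝ} (hc : Continuous f) (h : ∀ x, ‖f x‖ ≤ K * (1 + x ^ 2)⁻¹) :
    Integrable f :=
  (integrable_inv_one_add_sq.const_mul K).mono' hc.aestronglyMeasurable (Eventually.of_forall h)

theorem int_tail {c : ℝ} (hc : 0 < c) : Integrable fun x : ℝ => Real.exp (-c * √|x|) :=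
  (integrable_inv_one_add_sq.const_mul (1 + 24 / c ^ 4)).mono'
    (Continuous.aestronglyMeasurable (by fun_prop))
    (Eventually.of_forall fun x => by
      rw [Real.norm_eq_abs, abs_of_pos (Real.exp_pos _)]; exact tail_le hc x)

/-- Poisson summation below the critical band -/
theorem BG.poisson {B K : ℝ} {f : ℝ → ℂ} (h : BG B f) (hB : B < 2 * π)
    (hd : ∀ x, ‖f x‖ ≤ K * (1 + x ^ 2)⁻¹) :
    Summable (fun m : ℤ => f m) ∧ ∑' m : ℤ, f m = ∫ x, f x := by
  have hf := int_of_dec h.cont hd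
  have hK : 0 ≤ K := by simpa using (norm_nonneg _).trans (hd 0)
  have hO : f =O[cocompact ℝ] fun x : ℝ => |x| ^ (-2 : ℝ) := by
    refine Asymptotics.IsBigO.of_bound K ?_
    filter_upwards [(eventually_cofinite_ne (0 : ℝ)).filter_mono cocompact_le_cofinite] with x hx
    refine (hd x).trans (mul_le_mul_of_nonneg_left ?_ hK)
    rw [Real.norm_eq_abs, abs_of_nonneg (by positivity), Real.rpow_neg (abs_nonneg x),
      Real.rpow_two, sq_abs]
    exact inv_anti₀ (by positivity) (by linarith)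
  have hz : ∀ m : ℤ, m ≠ 0 → 𝓕 f m = 0 := fun m hm => by
    rw [Real.fourier_real_eq_integral_exp_smul, ← h.van hf (ξ := -(2 * π * m))]
    · congr 1 with y
      rw [smul_eq_mul]
      congr 2
      push_cast
      ring
    · have h1 : (1 : ℝ) ≤ |(m : ℝ)| := by exact_mod_cast Int.one_le_abs hm
      rw [abs_neg, abs_mul, abs_of_pos (by positivity : 0 < 2 * π)]
      nlinarith [Real.pi_pos]
  refine ⟨summable_of_isBigO (Real.summable_abs_int_rpow one_lt_two)
    (hO.comp_tendsto Int.tendsto_coe_cofinite), ?_⟩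
  have := Real.tsum_eq_tsum_fourier_of_rpow_decay_of_summable h.cont one_lt_two hO
    (summable_of_ne_finset_zero (s := {0}) fun m hm => hz m (by simpa using hm)) 0
  simp only [zero_add] at this
  rw [this, tsum_eq_single 0 fun m hm => by rw [hz m hm, zero_mul]]
  simp [Real.fourier_real_eq_integral_exp_smul]

end Pool.Agent.Lib.MP_9cc147_pr.Cx.H
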