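import Pool.Agent.Lib.MP_9cc147_pr.Cx.S1
import Pool.Agent.Lib.MP_9cc147_pr.Cx.H.Band

/-! An even band limited density with stretched exponential tails. -/

open scoped Classical Topology Real
open MeasureTheory Filter Complex

noncomputable section
namespace Pool.Agent.Lib.MP_9cc147_pr.Cx.H

theorem ft_cont {f : ℝ → ℂ} (hf : Integrable f) :
    Continuous fun s : ℝ => ∫ y : ℝ, cexp (I * y * (-s : ℝ)) * f y := by
  refine continuous_of_dominated (bound := fun y => ‖f y‖)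
    (fun s => (Continuous.aestronglyMeasurable (by fun_prop)).mul hf.1)
    (fun s => Eventually.of_forall fun y => ?_) hf.norm (Eventually.of_forall fun y => by fun_prop)
  rw [norm_mul, norm_e, one_mul]

theorem bg_sinc : BG 1 fun x => (Real.sinc x : ℂ) := by
  refine ⟨ℝ, inferInstance, volume.restrict (Set.Ioc (-1) 1), id, fun _ => 1 / 2, inferInstance,
    measurable_id, integrable_const _, ?_, fun x => ?_⟩
  · filter_upwards [ae_restrict_mem measurableSet_Ioc] with s hs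
    exact abs_le.2 ⟨hs.1.le, hs.2⟩
  · rw [← intervalIntegral.integral_of_le (by norm_num), intervalIntegral.integral_mul_const]
    simp only [id]
    by_cases hx : x = 0
    · subst hx; simp; norm_num
    · have hx' : (x : ℂ) ≠ 0 := ofReal_ne_zero.2 hx
      rw [integral_exp_mul_complex (mul_ne_zero I_ne_zero hx'), Real.sinc_of_ne_zero hx]
      push_cast
      rw [Complex.sin, show I * (x : ℂ) * 1 = x * I by ring, show I * (x : ℂ) * -1 = -x * I by ring]
      field_simp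
      linear_combination (cexp (-(x * I)) - cexp (x * I)) * I_mul_I

theorem sinc_sq_le_one (y : ℝ) : Real.sinc y ^ 2 ≤ 1 := by
  rw [← sq_abs]; exact pow_le_one₀ (abs_nonneg _) (Real.abs_sinc_le_one y)

theorem sinc_sq_mul (y : ℝ) : Real.sinc y ^ 2 * y ^ 2 ≤ 1 := by
  by_cases hy : y = 0
  · simp [hy]
  · rw [Real.sinc_of_ne_zero hy, div_pow, div_mul_cancel₀ _ (pow_ne_zero 2 hy)]
    exact Real.sin_sq_le_one y

def HK (K : ℕ) (x : ℝ) : ℝ := ∏ k ∈ Finset.range K, Real.sinc ((((k : ℝ) + 1) ^ 2)⁻¹ * x + 0) ^ 2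

theorem HK_nonneg (K : ℕ) (x : ℝ) : 0 ≤ HK K x := Finset.prod_nonneg fun _ _ => sq_nonneg _

theorem HK_anti (x : ℝ) : Antitone fun K => HK K x := by
  refine antitone_nat_of_succ_le fun K => ?_
  simp only [HK, Finset.prod_range_succ]
  exact mul_le_of_le_one_right (HK_nonneg K x) (sinc_sq_le_one _)

theorem HK_le (K : ℕ) (x : ℝ) : HK (K + 1) x ≤ 2 * (1 + x ^ 2)⁻¹ := by
  refine (HK_anti x (Nat.le_add_left 1 K)).trans ?_
  simp only [HK, Finset.prod_range_one, Nat.cast_zero, zero_add, one_pow, inv_one, one_mul, add_zero]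
  rw [← div_eq_mul_inv, le_div_iff₀ (by positivity)]
  nlinarith [sinc_sq_le_one x, sinc_sq_mul x]

theorem sum_inv_sq (K : ℕ) :
    ∑ k ∈ Finset.range K, (((k : ℝ) + 1) ^ 2)⁻¹ ≤ 2 - 2 * ((K : ℝ) + 1)⁻¹ := by
  induction K with
  | zero => simp
  | succ K ih =>
    rw [Finset.sum_range_succ]
    have : (((K : ℝ) + 1) ^ 2)⁻¹ ≤ 2 * ((K : ℝ) + 1)⁻¹ - 2 * (((K + 1 : ℕ) : ℝ) + 1)⁻¹ := by
      push_cast
      rw [← sub_nonneg]
      field_simp
      ring_nf
      positivity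
    linarith

theorem HK_bg (K : ℕ) : BG 4 fun x => (HK K x : ℂ) := by
  have := BG.prod (Finset.range K) (B := fun k => |(((k : ℝ) + 1) ^ 2)⁻¹| * 1 +
    |(((k : ℝ) + 1) ^ 2)⁻¹| * 1) fun k _ => (bg_sinc.aff _ 0).mul (bg_sinc.aff _ 0)
  simp only [HK, ofReal_prod, ofReal_pow, sq (Real.sinc _ : ℂ)]
  refine this.mono ?_
  have e : ∀ k : ℕ, |(((k : ℝ) + 1) ^ 2)⁻¹| = (((k : ℝ) + 1) ^ 2)⁻¹ := fun k =>
    abs_of_pos (by positivity)
  simp only [e, mul_one, Finset.sum_add_distrib]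
  have h1 := sum_inv_sq K
  have h2 : 0 ≤ ((K : ℝ) + 1)⁻¹ := by positivity
  linarith

def h0 (x : ℝ) : ℝ := ⨅ K, HK K x

theorem bdd (x : ℝ) : BddBelow (Set.range fun K => HK K x) :=
  ⟨0, by rintro _ ⟨K, rfl⟩; exact HK_nonneg K x⟩

theorem h0_lim (x : ℝ) : Tendsto (fun K => (HK (K + 1) x : ℂ)) atTop (𝓝 (h0 x : ℂ)) :=
  (continuous_ofReal.tendsto _).comp
    ((tendsto_add_atTop_iff_nat 1).2 (tendsto_atTop_ciInf (HK_anti x) (bdd x)))

theorem h0_le (K : ℕ) (x : ℝ) : h0 x ≤ HK K x := ciInf_le (bdd x) K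
theorem h0_nonneg (x : ℝ) : 0 ≤ h0 x := le_ciInf fun K => HK_nonneg K x

theorem h0_tail (x : ℝ) : h0 x ≤ Real.exp 2 * Real.exp (-1 * √|x|) := by
  refine (h0_le ⌊√|x| / 2⌋₊ x).trans ?_
  have h1 : (⌊√|x| / 2⌋₊ : ℝ) ≤ √|x| / 2 := Nat.floor_le (by positivity)
  have h2 := Nat.lt_floor_add_one (√|x| / 2)
  have h3 : HK ⌊√|x| / 2⌋₊ x ≤ ∏ _k ∈ Finset.range ⌊√|x| / 2⌋₊, Real.exp (-2) := by
    refine Finset.prod_le_prod (fun _ _ => sq_nonneg _) fun k hk => ?_
    have h4 : (k : ℝ) + 1 ≤ ⌊√|x| / 2⌋₊ := by exact_mod_cast Finset.mem_range.1 hk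
    have h5 : 4 * ((k : ℝ) + 1) ^ 2 ≤ |x| := by
      have h6 : 2 * ((k : ℝ) + 1) ≤ √|x| := by linarith
      have := pow_le_pow_left₀ (by positivity) h6 2
      rw [Real.sq_sqrt (abs_nonneg x)] at this
      linarith
    set y := (((k : ℝ) + 1) ^ 2)⁻¹ * x + 0 with hy
    have h7 : 4 ≤ |y| := by
      rw [hy, add_zero, abs_mul, abs_of_pos (by positivity), ← div_eq_inv_mul,
        le_div_iff₀ (by positivity)]
      exact h5
    have h8 : 16 ≤ y ^ 2 := by rw [← sq_abs]; nlinarith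
    have h9 : Real.exp 2 ≤ 16 := by
      rw [show (2 : ℝ) = 1 + 1 by norm_num, Real.exp_add]
      nlinarith [Real.exp_one_lt_d9, Real.exp_pos 1]
    rw [Real.exp_neg, inv_eq_one_div, le_div_iff₀ (Real.exp_pos _)]
    nlinarith [sinc_sq_mul y, sq_nonneg (Real.sinc y)]
  refine h3.trans ?_
  rw [Finset.prod_const, Finset.card_range, ← Real.exp_nat_mul, ← Real.exp_add]
  exact Real.exp_le_exp.2 (by linarith)

theorem HK_int (K : ℕ) : Integrable fun x => (HK (K + 1) x : ℂ) :=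
  int_of_dec (HK_bg _).cont fun x => by
    rw [norm_real, Real.norm_eq_abs, abs_of_nonneg (HK_nonneg _ _)]; exact HK_le K x

theorem h0_int : Integrable fun x => (h0 x : ℂ) := by
  refine (integrable_inv_one_add_sq.const_mul 2).mono'
    (aestronglyMeasurable_of_tendsto_ae atTop (fun K => (HK_int K).1)
      (Eventually.of_forall h0_lim)) (Eventually.of_forall fun x => ?_)
  rw [norm_real, Real.norm_eq_abs, abs_of_nonneg (h0_nonneg _)]
  exact (h0_le 1 x).trans (HK_le 0 x)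

theorem h0_eq (x : ℝ) : (h0 x : ℂ) = ∫ s in Set.Icc (-4 : ℝ) 4,
    cexp (I * x * s) * (((2 * π)⁻¹ : ℝ) * ∫ y : ℝ, cexp (I * y * (-s : ℝ)) * h0 y) := by
  have hb : ∀ (K : ℕ) (s y : ℝ), ‖cexp (I * y * (-s : ℝ)) * (HK (K + 1) y : ℂ)‖ ≤
      2 * (1 + y ^ 2)⁻¹ := fun K s y => by
    rw [norm_mul, norm_e, one_mul, norm_real, Real.norm_eq_abs, abs_of_nonneg (HK_nonneg _ _)]
    exact HK_le K y
  refine tendsto_nhds_unique (h0_lim x) ?_
  simp_rw [fun K => (HK_bg (K + 1)).inv (HK_int K) x]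
  refine tendsto_integral_of_dominated_convergence
    (fun _ => ‖(((2 * π)⁻¹ : ℝ) : ℂ)‖ * ∫ y : ℝ, 2 * (1 + y ^ 2)⁻¹) (fun K => ?_)
    (integrable_const _) (fun K => Eventually.of_forall fun s => ?_)
    (Eventually.of_forall fun s => ?_)
  · have := ft_cont (HK_int K)
    exact Continuous.aestronglyMeasurable (by fun_prop)
  · rw [norm_mul, norm_e, one_mul, norm_mul]
    exact mul_le_mul_of_nonneg_left (norm_integral_le_of_norm_le
      (integrable_inv_one_add_sq.const_mul 2) (Eventually.of_forall (hb K s))) (norm_nonneg _)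
  · refine (Tendsto.const_mul _ ?_).const_mul _
    exact tendsto_integral_of_dominated_convergence _
      (fun K => (Continuous.aestronglyMeasurable (by fun_prop)).mul (HK_int K).1)
      (integrable_inv_one_add_sq.const_mul 2) (fun K => Eventually.of_forall (hb K s))
      (Eventually.of_forall fun y => (h0_lim y).const_mul _)

theorem h0_bl (c : ℝ) : BL 4 fun x => c * h0 x := by
  have hc := ft_cont h0_int
  refine ⟨volume.restrict (Set.Icc (-4) 4), fun s => c * (((2 * π)⁻¹ : ℝ) *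
    ∫ y : ℝ, cexp (I * y * (-s : ℝ)) * h0 y), inferInstance,
    Continuous.integrableOn_Icc (by fun_prop), ?_, fun x => ?_⟩
  · filter_upwards [ae_restrict_mem measurableSet_Icc] with s hs
    exact abs_le.2 hs
  · rw [ofReal_mul, h0_eq, ← integral_const_mul]
    congr 1 with s
    ring

theorem s_h : S_h := by
  have hc : ∀ c : ℝ, Continuous fun x => c * h0 x := fun c =>
    (continuous_re.comp (BG.of_BL (h0_bl c)).cont).congr fun x => ofReal_re _
  have hi : Integrable h0 := by simpa using h0_int.re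
  have hp : 0 < ∫ x, h0 x := by
    refine integral_pos_of_integrable_nonneg_nonzero (x := 0)
      (by simpa using hc 1 : Continuous h0) hi h0_nonneg ?_
    simp [h0, HK]
  refine ⟨fun x => (∫ x, h0 x)⁻¹ * h0 x, hc _, fun x => mul_nonneg (inv_pos.2 hp).le (h0_nonneg x),
    fun x => ?_, ?_, ⟨1, (∫ x, h0 x)⁻¹ * Real.exp 2, one_pos, fun x => ?_⟩, 4, h0_bl _⟩
  · simp [h0, HK]
  · rw [integral_const_mul, inv_mul_cancel₀ hp.ne']
  · rw [mul_assoc]
    exact mul_le_mul_of_nonneg_left (h0_tail x) (inv_pos.2 hp).le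

end Pool.Agent.Lib.MP_9cc147_pr.Cx.H

theorem Pool.Agent.Lib.MP_9cc147_pr.Cx.t_h : Pool.Agent.Lib.MP_9cc147_pr.Cx.S_h :=
  Pool.Agent.Lib.MP_9cc147_pr.Cx.H.s_h
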