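import Pool.Agent.Lib.MP_9cc147_pr.Cx.S1
import Pool.Agent.Lib.MP_9cc147_pr.Cx.H.Band

/-! Poisson summation site by site. -/

open scoped Classical Topology Real ENNReal
open MeasureTheory Filter Function

noncomputable section
namespace Pool.Agent.Lib.MP_9cc147_pr.Cx.H

theorem hybrid {ι : Type} [Fintype ι] [DecidableEq ι] (μ ν : Measure ℝ) [SigmaFinite μ] [SigmaFinite ν]
    {G : (ι → ℝ) → ℝ≥0∞} (hG : Measurable G)
    (h : ∀ y i, ∫⁻ x, G (update y i x) ∂μ = ∫⁻ x, G (update y i x) ∂ν) :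
    ∫⁻ y, G y ∂Measure.pi (fun _ => μ) = ∫⁻ y, G y ∂Measure.pi (fun _ => ν) := by
  have inst : ∀ (S : Finset ι) i, SigmaFinite (if i ∈ S then μ else ν) := fun S i => by
    split_ifs <;> infer_instance
  have key : ∀ S : Finset ι, ∫⁻ y, G y ∂Measure.pi (fun i => if i ∈ S then μ else ν) =
      ∫⁻ y, G y ∂Measure.pi (fun _ => ν) := by
    intro S
    induction S using Finset.induction_on with
    | empty => simp
    | insert a S ha ih =>
      rw [← ih, lintegral_eq_lmarginal_univ 0, lintegral_eq_lmarginal_univ 0,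
        lmarginal_erase' G hG (Finset.mem_univ a), lmarginal_erase' G hG (Finset.mem_univ a)]
      simp only [Finset.mem_insert_self, if_true, ha, if_false, h, lmarginal]
      congr 2 with i : 1
      have : i.1 ≠ a := Finset.ne_of_mem_erase i.2
      simp [this]
  simpa using key Finset.univ

theorem lattice {ι : Type} [Fintype ι] [DecidableEq ι]
    {G : (ι → ℝ) → ℝ} (hc : Continuous G) (h0 : ∀ y, 0 ≤ G y)
    (hi : Integrable G) (h : ∀ y i, Integrable (fun x => G (update y i x)) ∧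
      Summable (fun m : ℤ => G (update y i m)) ∧
        ∑' m : ℤ, G (update y i m) = ∫ x, G (update y i x)) :
    Summable (fun k : ι → ℤ => G fun i => k i) ∧ ∑' k : ι → ℤ, G (fun i => k i) = ∫ y, G y := by
  have he : MeasurableEmbedding ((↑) : ℤ → ℝ) := Int.isClosedEmbedding_coe_real.measurableEmbedding
  have : SigmaFinite ((Measure.count : Measure ℤ).map ((↑) : ℤ → ℝ)) := he.sigmaFinite_map
  have hG : Measurable fun y => ENNReal.ofReal (G y) := hc.measurable.ennreal_ofReal
  have key := hybrid ((Measure.count : Measure ℤ).map ((↑) : ℤ → ℝ)) volume hG fun y i => by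
    rw [he.lintegral_map, lintegral_count, ← ENNReal.ofReal_tsum_of_nonneg (fun _ => h0 _) (h y i).2.1,
      (h y i).2.2, ofReal_integral_eq_lintegral_ofReal (h y i).1 (Eventually.of_forall fun _ => h0 _)]
  have e : Measure.pi (fun _ : ι => (Measure.count : Measure ℤ)) = Measure.count :=
    Measure.ext_of_singleton fun k => by
      rw [Measure.count_singleton, ← Set.univ_pi_singleton, Measure.pi_pi]; simp
  rw [← Measure.pi_map_pi (fun _ => he.measurable.aemeasurable), e,
    lintegral_map hG (measurable_of_countable _), lintegral_count, ← volume_pi,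
    ← ofReal_integral_eq_lintegral_ofReal hi (Eventually.of_forall h0)] at key
  have hs : Summable fun k : ι → ℤ => G fun i => k i := by
    exact (ENNReal.summable_toReal (key ▸ ENNReal.ofReal_ne_top)).congr fun k =>
      ENNReal.toReal_ofReal (h0 _)
  refine ⟨hs, ?_⟩
  rwa [← ENNReal.ofReal_tsum_of_nonneg (fun _ => h0 _) hs, ENNReal.ofReal_eq_ofReal_iff
    (tsum_nonneg fun _ => h0 _) (integral_nonneg h0)] at key

theorem sqrt_tri (a b : ℝ) : √|a| ≤ √|b| + √|b - a| := by
  rw [Real.sqrt_le_left (by positivity), add_sq, Real.sq_sqrt (abs_nonneg _),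
    Real.sq_sqrt (abs_nonneg _)]
  have h1 : |a| ≤ |b| + |b - a| := by
    have := abs_sub b (b - a)
    rwa [sub_sub_cancel] at this
  have h2 : 0 ≤ 2 * √|b| * √|b - a| := by positivity
  linarith

theorem pin_le {n : ℕ} (φ : {x : V n // x ≠ (0, 0)} → ℝ) (k : ℕ) : ∀ v : V n,
    v.1.val + v.2.val = k → √|pin φ v| ≤ k * ∑ e ∈ edges n, √|pin φ e.1 - pin φ e.2| := by
  induction k with
  | zero =>
    rintro ⟨i, j⟩ h
    have : (i, j) = (0, 0) := Prod.ext (Fin.ext (by simp at h ⊢; omega))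
      (Fin.ext (by simp at h ⊢; omega))
    simp [pin, this]
  | succ k ih =>
    rintro ⟨i, j⟩ h
    obtain ⟨u, hu, he⟩ : ∃ u : V n, u.1.val + u.2.val = k ∧ (u, (i, j)) ∈ edges n := by
      simp only at h
      by_cases hi : i.val = 0
      · exact ⟨(i, ⟨j.val - 1, by omega⟩), by simp only; omega, by simp [edges]; omega⟩
      · exact ⟨(⟨i.val - 1, by omega⟩, j), by simp only; omega, by simp [edges]; omega⟩
    have h1 := Finset.single_le_sum (f := fun e : V n × V n => √|pin φ e.1 - pin φ e.2|)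
      (fun _ _ => Real.sqrt_nonneg _) he
    have h2 := sqrt_tri (pin φ (i, j)) (pin φ u)
    have h3 := ih u hu
    push_cast
    linarith

theorem wR_le {w : ℝ → ℝ} {c K : ℝ} (h0 : ∀ x, 0 < w x) (hc : 0 < c)
    (h : ∀ x, w x ≤ K * Real.exp (-c * √|x|)) (n : ℕ) :
    ∃ c' C : ℝ, 0 < c' ∧ 0 ≤ C ∧ ∀ φ, wR w n φ ≤ C * ∏ x, Real.exp (-c' * √|φ x|) := by
  have hK : 0 ≤ K := by simpa using (h0 0).le.trans (h 0)
  set N : ℝ := ((Fintype.card {x : V n // x ≠ (0, 0)} : ℕ) : ℝ) with hN
  have hN0 : 0 ≤ N := Nat.cast_nonneg _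
  refine ⟨c / (N * (2 * n) + 1), K ^ (edges n).card, by positivity, by positivity, fun φ => ?_⟩
  refine (Finset.prod_le_prod (fun _ _ => (h0 _).le) fun e _ => h _).trans ?_
  rw [Finset.prod_mul_distrib, Finset.prod_const, ← Real.exp_sum, ← Real.exp_sum, ← Finset.mul_sum,
    ← Finset.mul_sum]
  set D := ∑ e ∈ edges n, √|pin φ e.1 - pin φ e.2| with hD
  have hD0 : 0 ≤ D := Finset.sum_nonneg fun _ _ => Real.sqrt_nonneg _
  have h1 : ∑ x, √|φ x| ≤ N * (2 * n * D) := by
    rw [hN, ← nsmul_eq_mul, ← Finset.card_univ]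
    refine Finset.sum_le_card_nsmul _ _ _ fun x _ => ?_
    have h2 := pin_le φ _ x.1 rfl
    rw [show pin φ x.1 = φ x by simp [pin, x.2]] at h2
    refine h2.trans (mul_le_mul_of_nonneg_right ?_ hD0)
    have : x.1.1.val + x.1.2.val ≤ 2 * n := by omega
    exact_mod_cast this
  refine mul_le_mul_of_nonneg_left (Real.exp_le_exp.2 ?_) (by positivity)
  rw [neg_mul, neg_mul, neg_le_neg_iff, div_mul_eq_mul_div, div_le_iff₀ (by positivity), mul_assoc]
  exact mul_le_mul_of_nonneg_left (by nlinarith) hc.le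

theorem pin_cont {n : ℕ} (v : V n) : Continuous fun φ : {x : V n // x ≠ (0, 0)} → ℝ => pin φ v := by
  unfold pin
  split_ifs <;> fun_prop

theorem pin_upd {n : ℕ} (a : ℝ) (y : {x : V n // x ≠ (0, 0)} → ℝ) (i : {x : V n // x ≠ (0, 0)})
    (x : ℝ) (v : V n) : pin (a • update y i x) v =
      (if v = i.1 then a else 0) * x + pin (a • update y i 0) v := by
  by_cases h : v = i.1
  · subst h; simp [pin, i.2]
  · by_cases h0 : v = (0, 0)
    · rw [if_neg h]; simp [pin, h0]
    · have : (⟨v, h0⟩ : {x : V n // x ≠ (0, 0)}) ≠ i := fun e => h (congrArg Subtype.val e)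
      simp [pin, h, h0, update_of_ne this]

theorem deg1 {n : ℕ} (v : V n) : ((edges n).filter fun e => e.1 = v).card ≤ 2 := by
  refine (Finset.card_le_card_of_injOn (fun e => decide (e.1.1.val = e.2.1.val))
    (t := Finset.univ) (fun _ _ => Finset.mem_univ _) ?_).trans (by simp)
  rintro ⟨⟨a, b⟩, c, d⟩ h ⟨⟨a', b'⟩, c', d'⟩ h' e
  simp only [edges, Finset.coe_filter, Finset.mem_filter, Finset.mem_univ, true_and,
    Set.mem_ofPred_eq, decide_eq_decide, Prod.ext_iff, Fin.ext_iff] at h h' e ⊢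
  omega

theorem deg2 {n : ℕ} (v : V n) : ((edges n).filter fun e => e.2 = v).card ≤ 2 := by
  refine (Finset.card_le_card_of_injOn (fun e => decide (e.1.1.val = e.2.1.val))
    (t := Finset.univ) (fun _ _ => Finset.mem_univ _) ?_).trans (by simp)
  rintro ⟨⟨a, b⟩, c, d⟩ h ⟨⟨a', b'⟩, c', d'⟩ h' e
  simp only [edges, Finset.coe_filter, Finset.mem_filter, Finset.mem_univ, true_and,
    Set.mem_ofPred_eq, decide_eq_decide, Prod.ext_iff, Fin.ext_iff] at h h' e ⊢
  omega

def Gt (w : ℝ → ℝ) (n : ℕ) (a t : ℝ) (φ : {x : V n // x ≠ (0, 0)} → ℝ) : ℝ :=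
  wR w n (a • φ) * (1 + Real.cos (t * pin (a • φ) (Fin.last n, Fin.last n)))

theorem Gt_bg {w : ℝ → ℝ} {B a t : ℝ} (hB : BL B w) (ha : 0 ≤ a) (ht : |t| ≤ 1) {n : ℕ}
    (y : {x : V n // x ≠ (0, 0)} → ℝ) (i : {x : V n // x ≠ (0, 0)}) :
    BG (a * (4 * |B| + 1)) fun x => (Gt w n a t (update y i x) : ℂ) := by
  have h1 := BG.prod (edges n) fun e _ => ((BG.of_BL hB).mono (le_abs_self B)).aff
    ((if e.1 = i.1 then a else 0) - if e.2 = i.1 then a else 0)
    (pin (a • update y i 0) e.1 - pin (a • update y i 0) e.2)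
  have h2 := (BG.cos t).aff (if (Fin.last n, Fin.last n) = i.1 then a else 0)
    (pin (a • update y i 0) (Fin.last n, Fin.last n))
  have h3 := (h1.mul h2).mono (B' := a * (4 * |B| + 1)) (by
    have e1 : ∑ e ∈ edges n, |(if e.1 = i.1 then a else 0) - if e.2 = i.1 then a else 0| ≤
        ∑ e ∈ edges n, ((if e.1 = i.1 then a else 0) + if e.2 = i.1 then a else 0) :=
      Finset.sum_le_sum fun e _ => by
        split_ifs <;> simp [abs_of_nonneg ha, ha]
    rw [Finset.sum_add_distrib, ← Finset.sum_filter, ← Finset.sum_filter, Finset.sum_const,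
      Finset.sum_const, nsmul_eq_mul, nsmul_eq_mul] at e1
    have e2 : (((edges n).filter fun e => e.1 = i.1).card : ℝ) ≤ 2 := by exact_mod_cast deg1 i.1
    have e3 : (((edges n).filter fun e => e.2 = i.1).card : ℝ) ≤ 2 := by exact_mod_cast deg2 i.1
    have e4 : |if (Fin.last n, Fin.last n) = i.1 then a else 0| ≤ a := by
      split_ifs <;> simp [abs_of_nonneg ha, ha]
    rw [← Finset.sum_mul]
    have e5 := mul_le_mul e4 ht (abs_nonneg t) ha
    have e6 := mul_le_mul_of_nonneg_right (e1.trans (show _ ≤ 4 * a by nlinarith)) (abs_nonneg B)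
    linarith)
  convert h3 using 2 with x
  simp only [Gt, wR, Complex.ofReal_mul, Complex.ofReal_prod, pin_upd a y i x]
  congr 1
  refine Finset.prod_congr rfl fun e _ => ?_
  congr 2
  ring

def pinZ {n : ℕ} (k : {x : V n // x ≠ (0, 0)} → ℤ) (v : V n) : ℤ :=
  if h : v = (0, 0) then 0 else k ⟨v, h⟩

theorem pinZ_inj {n : ℕ} : Injective (pinZ (n := n)) := fun k k' h => funext fun x => by
  simpa [pinZ, x.2] using congrFun h x.1

theorem pinZ_range {n : ℕ} {m : V n → ℤ} (h : m (0, 0) = 0) : m ∈ Set.range (pinZ (n := n)) :=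
  ⟨fun x => m x.1, funext fun v => by
    unfold pinZ
    split_ifs with hv
    · rw [hv, h]
    · rfl⟩

theorem pinZ_cast {n : ℕ} (M : ℝ) (k : {x : V n // x ≠ (0, 0)} → ℤ) (v : V n) :
    (pinZ k v : ℝ) / M = pin (M⁻¹ • fun i => (k i : ℝ)) v := by
  unfold pinZ pin
  split_ifs <;> simp [div_eq_inv_mul]

theorem weight_pinZ {w : ℝ → ℝ} (h0 : ∀ x, 0 < w x) {n : ℕ} (M : ℝ)
    (k : {x : V n // x ≠ (0, 0)} → ℤ) :
    weight (fun x => -Real.log (w x)) M n (pinZ k) = wR w n (M⁻¹ • fun i => (k i : ℝ)) := by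
  rw [weight, if_pos (by simp [pinZ]), Finset.sum_neg_distrib, neg_neg, Real.exp_sum, wR]
  refine Finset.prod_congr rfl fun e _ => ?_
  rw [Real.exp_log (h0 _), Int.cast_sub, sub_div, pinZ_cast, pinZ_cast]

theorem s_poi : S_poi := by
  rintro w B hB hw h0 ⟨c, K, hc, h⟩
  refine ⟨4 * |B| + 1, by positivity, fun M hM n _ => ?_⟩
  have hM0 : 0 < M := lt_trans (by positivity) hM
  have ha : 0 < M⁻¹ := inv_pos.2 hM0
  obtain ⟨c', C, hc', hC, hle⟩ := wR_le h0 hc h n
  have hpos : ∀ φ, 0 ≤ wR w n φ := fun φ => Finset.prod_nonneg fun _ _ => (h0 _).le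
  have hcont : Continuous (wR w n) :=
    continuous_finsetProd _ fun e _ => hw.comp ((pin_cont _).sub (pin_cont _))
  have hint : Integrable (wR w n) :=
    ((Integrable.fintype_prod fun _ => int_tail hc').const_mul C).mono' hcont.aestronglyMeasurable
      (Eventually.of_forall fun φ => by
        rw [Real.norm_eq_abs, abs_of_nonneg (hpos φ)]; exact hle φ)
  have hcos : ∀ t : ℝ, Continuous fun φ : {x : V n // x ≠ (0, 0)} → ℝ =>
      Real.cos (t * pin φ (Fin.last n, Fin.last n)) := fun t =>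
    Real.continuous_cos.comp (continuous_const.mul (pin_cont _))
  have hint' : ∀ t : ℝ, Integrable fun φ =>
      wR w n φ * Real.cos (t * pin φ (Fin.last n, Fin.last n)) := fun t =>
    hint.mul_bdd (c := 1) (hcos t).aestronglyMeasurable
      (Eventually.of_forall fun _ => Real.abs_cos_le_one _)
  have hG0 : ∀ t φ, 0 ≤ Gt w n M⁻¹ t φ := fun t φ =>
    mul_nonneg (hpos _) (by linarith [Real.neg_one_le_cos (t * pin (M⁻¹ • φ) (Fin.last n, Fin.last n))])
  have key : ∀ t : ℝ, |t| ≤ 1 → _ := fun t ht => lattice (G := Gt w n M⁻¹ t)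
    ((hcont.comp (continuous_const_smul _)).mul
      (continuous_const.add ((hcos t).comp (continuous_const_smul _)))) (hG0 t)
    (by
      refine ((hint.add (hint' t)).comp_smul ha.ne').congr (Eventually.of_forall fun φ => ?_)
      simp only [Gt, Pi.add_apply]
      ring)
    fun y i => by
      have hb := Gt_bg hB ha.le ht y i
      have hd : ∀ x : ℝ, ‖(Gt w n M⁻¹ t (update y i x) : ℂ)‖ ≤
          (2 * C * (1 + 24 / (c' * √M⁻¹) ^ 4)) * (1 + x ^ 2)⁻¹ := fun x => by
        rw [Complex.norm_real, Real.norm_eq_abs, abs_of_nonneg (hG0 _ _), mul_assoc (2 * C)]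
        refine le_trans ?_ (mul_le_mul_of_nonneg_left (tail_le (by positivity) x) (by positivity))
        have e1 : ∏ j, Real.exp (-c' * √|(M⁻¹ • update y i x) j|) ≤
            Real.exp (-(c' * √M⁻¹) * √|x|) := by
          rw [← Real.exp_sum, Real.exp_le_exp, ← Finset.mul_sum]
          have := Finset.single_le_sum (f := fun j => √|(M⁻¹ • update y i x) j|)
            (fun _ _ => Real.sqrt_nonneg _) (Finset.mem_univ i)
          simp only [Pi.smul_apply, update_self, smul_eq_mul, abs_mul, abs_of_pos ha,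
            Real.sqrt_mul ha.le] at this ⊢
          nlinarith
        have e2 := (hle _).trans (mul_le_mul_of_nonneg_left e1 hC)
        have e3 := Real.cos_le_one (t * pin (M⁻¹ • update y i x) (Fin.last n, Fin.last n))
        have e4 := hpos (M⁻¹ • update y i x)
        unfold Gt
        nlinarith
      obtain ⟨p1, p2⟩ := hb.poisson (by
        rw [inv_mul_lt_iff₀ hM0]; nlinarith [Real.pi_gt_three]) hd
      rw [integral_complex_ofReal, ← Complex.ofReal_tsum, Complex.ofReal_inj] at p2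
      exact ⟨by simpa using (int_of_dec hb.cont hd).re, Complex.summable_ofReal.1 p1, p2⟩
  obtain ⟨s0, e0⟩ := key 0 (by simp)
  simp only [Gt, zero_mul, Real.cos_zero] at s0 e0
  rw [tsum_mul_right, integral_mul_const, mul_left_inj' (by norm_num)] at e0
  rw [summable_mul_right_iff (by norm_num)] at s0
  refine ⟨hint, ?_, |(M⁻¹ ^ Module.finrank ℝ ({x : V n // x ≠ (0, 0)} → ℝ))⁻¹|, by positivity,
    fun t ht => ?_⟩
  · exact (pinZ_inj.summable_iff (f := weight (fun x => -Real.log (w x)) M n)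
      fun m hm => if_neg fun h => hm (pinZ_range h)).1
      (s0.congr fun k => (weight_pinZ h0 M k).symm)
  · obtain ⟨s1, e1⟩ := key t ht
    rw [← pinZ_inj.tsum_eq fun m hm => pinZ_range (by
      by_contra h
      exact hm (by simp [weight, h]))]
    simp only [weight_pinZ h0, mul_div_assoc, pinZ_cast]
    rw [← smul_eq_mul, ← Measure.integral_comp_smul volume]
    simp only [Gt, mul_add, mul_one] at s1 e1
    have s2 := (s1.sub s0).congr fun k => add_sub_cancel_left _ _
    rw [s0.tsum_add s2, integral_add (hint.comp_smul ha.ne') ((hint' t).comp_smul ha.ne'), e0] at e1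
    exact add_left_cancel e1

end Pool.Agent.Lib.MP_9cc147_pr.Cx.H

theorem Pool.Agent.Lib.MP_9cc147_pr.Cx.t_poi : Pool.Agent.Lib.MP_9cc147_pr.Cx.S_poi :=
  Pool.Agent.Lib.MP_9cc147_pr.Cx.H.s_poi
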